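import Pool.Agent.helper64.D2.SpecF

set_option autoImplicit false

open Filter Topology
open scoped commutatorElement

namespace Pool.Agent.helper64.D2

theorem PIE_diff (F : ℝ → ℝ) (hF : ContDiff ℝ 2 F) : Differentiable ℝ F ∧ Differentiable ℝ (deriv F) := by
  have h2 : ContDiff ℝ (1 + 1) F := by
    have : (1 + 1 : WithTop ℕ∞) = 2 := by norm_num
    rw [this]; exact hF
  have h3 := (contDiff_succ_iff_deriv.1 h2)
  exact ⟨h3.1, h3.2.2.differentiable (by norm_num)⟩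

theorem PIE_lip (F : ℝ → ℝ) (K : ℝ) (hF : Differentiable ℝ F) (hK : ∀ x, |deriv F x| ≤ K) (x y : ℝ) :
    |F x - F y| ≤ K * |x - y| := by
  have h := Convex.norm_image_sub_le_of_norm_deriv_le (f := F) (C := K) (s := Set.univ) (x := y) (y := x)
    (fun z _ => hF z) (fun z _ => by simpa [Real.norm_eq_abs] using hK z) convex_univ (Set.mem_univ _) (Set.mem_univ _)
  simpa [Real.norm_eq_abs] using h

theorem PIE_mul (hMLA : MLA_stmt) (u v : ℝ → ℝ) (Au Av : ℝ) (hu : ML u) (hv : ML v) (hAu : ∀ x, |u x| ≤ Au)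
    (hAv : ∀ x, |v x| ≤ Av) : ML (fun x => u x * v x) ∧ ∀ x, |u x * v x| ≤ Au * Av := by
  refine ⟨hMLA.2.2.1 u v (max Au Av) hu hv (fun x => ⟨(hAu x).trans (le_max_left _ _), (hAv x).trans (le_max_right _ _)⟩), ?_⟩
  intro x
  rw [abs_mul]
  exact mul_le_mul (hAu x) (hAv x) (abs_nonneg _) ((abs_nonneg _).trans (hAu x))

theorem PIE (hGGB : GGB_stmt) (hGDB : GDB_stmt) (hMLA : MLA_stmt) : PIE_stmt := by
  intro f0 hf0 f1 hf1 α β c C e hsup hc hb he
  obtain ⟨hext, hmul, hone, hinv, hadd, hmono, htr, hcom⟩ := hGGB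
  obtain ⟨hc0, hper0, hbd0, hd0⟩ := hGDB f0 hf0
  obtain ⟨hc1, hper1, hbd1, hd1⟩ := hGDB f1 hf1
  have hf0i : f0⁻¹ ∈ G2 := G2.inv_mem hf0
  obtain ⟨hci, hperi, hbdi, hdi⟩ := hGDB f0⁻¹ hf0i
  obtain ⟨D0, D0'⟩ := PIE_diff _ hc0
  obtain ⟨D1, D1'⟩ := PIE_diff _ hc1
  obtain ⟨Di, Di'⟩ := PIE_diff _ hci
  set φ : ℝ → ℝ := gg f0⁻¹ with hφ
  have hG : gg (f1 * f0⁻¹) = fun x => gg f1 (φ x) := by
    funext x; exact hmul _ _ _
  have hdG : deriv (gg (f1 * f0⁻¹)) = fun x => deriv (gg f1) (φ x) * deriv φ x := by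
    rw [hG]
    funext x
    exact ((D1 (φ x)).hasDerivAt.comp x (Di x).hasDerivAt).deriv
  have hd2G : ∀ x, d2 (gg (f1 * f0⁻¹)) x
      = d2 (gg f1) (φ x) * deriv φ x * deriv φ x + deriv (gg f1) (φ x) * d2 φ x := by
    intro x
    show deriv (deriv (gg (f1 * f0⁻¹))) x = _
    rw [hdG]
    have h1 : HasDerivAt (fun x => deriv (gg f1) (φ x)) (deriv (deriv (gg f1)) (φ x) * deriv φ x) x :=
      (D1' (φ x)).hasDerivAt.comp x (Di x).hasDerivAt
    have h2 : HasDerivAt (deriv φ) (deriv (deriv φ) x) x := (Di' x).hasDerivAt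
    exact (h1.mul h2).deriv
  have hp : ∀ y, 0 < deriv (gg f0) y := fun y => lt_of_lt_of_le hc (hb y).1
  -- the formula
  have key : ∀ x, d2 (gg (f1 * f0⁻¹)) x
      = (d2 (gg f1) (φ x) - d2 (gg f0) (φ x)) * (1 / deriv (gg f0) (φ x)) * (1 / deriv (gg f0) (φ x))
        - (deriv (gg f1) (φ x) - deriv (gg f0) (φ x)) * d2 (gg f0) (φ x) * (1 / deriv (gg f0) (φ x))
          * (1 / deriv (gg f0) (φ x)) * (1 / deriv (gg f0) (φ x)) := by
    intro x
    rw [hd2G x, (hd0 x).1, (hd0 x).2]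
    have := (hp (φ x)).ne'
    field_simp
    ring
  have hr : ∀ y, 0 < 1 / deriv (gg f0) y ∧ 1 / deriv (gg f0) y ≤ 1 / c := by
    intro y
    refine ⟨by have := hp y; positivity, one_div_le_one_div_of_le hc (hb y).1⟩
  have he0 : 0 ≤ e := (abs_nonneg _).trans (he 0).1
  have hC0 : 0 ≤ C := (abs_nonneg _).trans (hb 0).2
  refine ⟨G2.mul_mem hf1 hf0i, ?_, ?_, ?_⟩
  · intro x hx
    rw [hG]
    show gg f1 (φ x) = x
    rw [hsup (φ x) ?_]
    · exact (hinv f0 x).2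
    · intro n hn
      apply hx n
      have h1 : gg f0 (φ x + n) = x + n := by rw [hadd, (hinv f0 x).2]
      rw [← h1]
      exact ⟨(hmono f0).monotone hn.1, (hmono f0).monotone hn.2⟩
  · intro x
    rw [key x]
    obtain ⟨r0, r1⟩ := hr (φ x)
    set r := 1 / deriv (gg f0) (φ x) with hrdef
    have h1 := (he (φ x)).1
    have h2 := (he (φ x)).2
    have h3 := (hb (φ x)).2
    have hcc : 0 < 1 / c := by positivity
    have a1 : |(d2 (gg f1) (φ x) - d2 (gg f0) (φ x)) * r * r| ≤ e * (1 / c) * (1 / c) := by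
      rw [abs_mul, abs_mul, abs_of_pos r0]
      gcongr
    have a2 : |(deriv (gg f1) (φ x) - deriv (gg f0) (φ x)) * d2 (gg f0) (φ x) * r * r * r|
        ≤ e * C * (1 / c) * (1 / c) * (1 / c) := by
      rw [abs_mul, abs_mul, abs_mul, abs_mul, abs_of_pos r0]
      gcongr
    calc _ ≤ |(d2 (gg f1) (φ x) - d2 (gg f0) (φ x)) * r * r|
          + |(deriv (gg f1) (φ x) - deriv (gg f0) (φ x)) * d2 (gg f0) (φ x) * r * r * r| := abs_sub _ _
      _ ≤ e * (1 / c) * (1 / c) + e * C * (1 / c) * (1 / c) * (1 / c) := add_le_add a1 a2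
      _ = e * (1 / c ^ 2 + C / c ^ 3) := by field_simp
  · intro hM0 hM1
    obtain ⟨L1, L2, L3, L4⟩ := hMLA
    have hMLA : MLA_stmt := ⟨L1, L2, L3, L4⟩
    -- the factor `1 / f0'`
    have Mr : ML (fun y => 1 / deriv (gg f0) y) := by
      apply L1 _ (C * (1 / c) * (1 / c))
      intro x y
      have h1 := PIE_lip (deriv (gg f0)) C D0' (fun z => (hb z).2) y x
      obtain ⟨rx0, rx1⟩ := hr x
      obtain ⟨ry0, ry1⟩ := hr y
      have e1 : 1 / deriv (gg f0) x - 1 / deriv (gg f0) y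
          = (deriv (gg f0) y - deriv (gg f0) x) * (1 / deriv (gg f0) x) * (1 / deriv (gg f0) y) := by
        have := (hp x).ne'
        have := (hp y).ne'
        field_simp
      rw [e1, abs_mul, abs_mul, abs_of_pos rx0, abs_of_pos ry0]
      rw [abs_sub_comm y x] at h1
      have hcc : 0 < 1 / c := by positivity
      calc |deriv (gg f0) y - deriv (gg f0) x| * (1 / deriv (gg f0) x) * (1 / deriv (gg f0) y)
          ≤ (C * |x - y|) * (1 / c) * (1 / c) := by gcongr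
        _ = C * (1 / c) * (1 / c) * |x - y| := by ring
    have Br : ∀ y, |1 / deriv (gg f0) y| ≤ 1 / c := by
      intro y; rw [abs_of_pos (hr y).1]; exact (hr y).2
    have Mneg : ML (fun _ : ℝ => (-1 : ℝ)) := by
      apply L1 _ 0
      intro x y; simp
    have Bneg : ∀ y : ℝ, |(-1 : ℝ)| ≤ 1 := by intro y; simp
    have Mm0 := (PIE_mul hMLA (fun _ => (-1 : ℝ)) (d2 (gg f0)) 1 C Mneg hM0 Bneg (fun x => (hb x).2)).1
    have Ma : ML (fun y => d2 (gg f1) y - d2 (gg f0) y) := by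
      have := L2 (d2 (gg f1)) _ hM1 Mm0
      have e1 : (fun x => d2 (gg f1) x + -1 * d2 (gg f0) x) = fun y => d2 (gg f1) y - d2 (gg f0) y := by
        funext y; ring
      rw [← e1]; exact this
    have Mb : ML (fun y => -(deriv (gg f1) y - deriv (gg f0) y)) := by
      apply L1 _ e
      intro x y
      have h1 := PIE_lip (fun y => deriv (gg f1) y - deriv (gg f0) y) e (D1'.sub D0') (fun z => by
        have e1 : deriv (fun y => deriv (gg f1) y - deriv (gg f0) y) z = d2 (gg f1) z - d2 (gg f0) z :=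
          ((D1' z).hasDerivAt.sub (D0' z).hasDerivAt).deriv
        rw [e1]; exact (he z).2) x y
      have e2 : -(deriv (gg f1) x - deriv (gg f0) x) - -(deriv (gg f1) y - deriv (gg f0) y)
          = -((deriv (gg f1) x - deriv (gg f0) x) - (deriv (gg f1) y - deriv (gg f0) y)) := by ring
      rw [e2, abs_neg]; exact h1
    have Bb : ∀ y, |-(deriv (gg f1) y - deriv (gg f0) y)| ≤ e := by
      intro y; rw [abs_neg]; exact (he y).1
    obtain ⟨A1, B1⟩ := PIE_mul hMLA _ _ e (1 / c) Ma Mr (fun x => (he x).2) Br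
    obtain ⟨A2, B2⟩ := PIE_mul hMLA _ _ _ (1 / c) A1 Mr B1 Br
    obtain ⟨E1, F1⟩ := PIE_mul hMLA _ _ e C Mb hM0 Bb (fun x => (hb x).2)
    obtain ⟨E2, F2⟩ := PIE_mul hMLA _ _ _ (1 / c) E1 Mr F1 Br
    obtain ⟨E3, F3⟩ := PIE_mul hMLA _ _ _ (1 / c) E2 Mr F2 Br
    obtain ⟨E4, F4⟩ := PIE_mul hMLA _ _ _ (1 / c) E3 Mr F3 Br
    have Msum := L2 _ _ A2 E4
    have hφL : ∀ x y, |φ x - φ y| ≤ (1 / c) * |x - y| := by
      intro x y
      apply PIE_lip φ (1 / c) Di
      intro z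
      rw [(hd0 z).1]
      exact Br _
    have Mfin := L4 _ φ (1 / c) Msum hφL
    have e3 : d2 (gg (f1 * f0⁻¹)) = fun x => (fun y =>
        (d2 (gg f1) y - d2 (gg f0) y) * (1 / deriv (gg f0) y) * (1 / deriv (gg f0) y)
        + -(deriv (gg f1) y - deriv (gg f0) y) * d2 (gg f0) y * (1 / deriv (gg f0) y)
          * (1 / deriv (gg f0) y) * (1 / deriv (gg f0) y)) (φ x) := by
      funext x
      rw [key x]
      ring
    rw [e3]
    exact Mfin

end Pool.Agent.helper64.D2
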